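import Pool.Agent.Y641.CB.SD3a
import Pool.Agent.W398.HT.RRD2

/-!
# The critical value with three variables
-/

set_option autoImplicit false

namespace Pool.Agent.Y641.CB

open Filter Topology Metric
open Pool.Agent.W711.HT (rrF ssF Lg bet Rc S_RRD)
open Pool.Agent.W177.HT (asn sin_asn asn_zero asn_an norm_one_sub_cos norm_sin_le eq_zero_of_exp
  hasDerivAt_Lg cos_pi_div_four' Lg_est rrF_comp rrF_neg pi_ne)
open scoped Real

lemma ev_ball3 {P : ℂ × ℂ × ℂ → Prop} (h : ∀ᶠ p in 𝓝 0, P p) :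
    ∃ r : ℝ, 0 < r ∧ ∀ x y z : ℂ, ‖x‖ < r → ‖y‖ < r → ‖z‖ < r → P (x, y, z) := by
  rw [Metric.eventually_nhds_iff_ball] at h
  obtain ⟨r, hr, h⟩ := h
  refine ⟨r, hr, fun x y z hx hy hz => h (x, y, z) ?_⟩
  rw [mem_ball_zero_iff, Prod.norm_mk, Prod.norm_mk]
  exact max_lt hx (max_lt hy hz)

/-! ### The first derivatives -/

/-- the logarithm with the angle `π / 2 - a p` and the variable `l p` -/
noncomputable def GG (a : ℂ × ℂ × ℂ → ℂ) (l : ℂ × ℂ × ℂ →L[ℂ] ℂ) (p : ℂ × ℂ × ℂ) : ℂ :=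
  -(1 / (2 * π)) * Lg (π / 2 - a p) (l p)

lemma GG_an {a : ℂ × ℂ × ℂ → ℂ} (ha : AnalyticAt ℂ a 0) (a0 : a 0 = 0)
    (l : ℂ × ℂ × ℂ →L[ℂ] ℂ) : AnalyticAt ℂ (GG a l) 0 := by
  unfold GG Lg
  have s2 : (0:ℝ) < √2 / 2 := by positivity
  have hl : AnalyticAt ℂ (fun p => l p) 0 := l.analyticAt 0
  have hu : AnalyticAt ℂ (fun p => π / 2 - a p) 0 := analyticAt_const.sub ha
  have h1 : AnalyticAt ℂ (fun p => Complex.cos ((π / 2 - a p - l p) / 2)) 0 :=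
    Complex.analyticAt_cos.fun_comp ((hu.sub hl).div analyticAt_const (by norm_num))
  have h2 : AnalyticAt ℂ (fun p => Complex.cos ((π / 2 - a p + l p) / 2)) 0 :=
    Complex.analyticAt_cos.fun_comp ((hu.add hl).div analyticAt_const (by norm_num))
  have v1 : Complex.cos ((π / 2 - a 0 - l 0) / 2) = ((√2 / 2 : ℝ) : ℂ) := by
    rw [← cos_pi_div_four', a0, map_zero]; simp
  have v2 : Complex.cos ((π / 2 - a 0 + l 0) / 2) = ((√2 / 2 : ℝ) : ℂ) := by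
    rw [← cos_pi_div_four', a0, map_zero]; simp
  apply analyticAt_const.mul
  apply AnalyticAt.clog (h1.fun_div h2 (by rw [v2]; exact_mod_cast s2.ne'))
  rw [v1, v2, div_self (by exact_mod_cast s2.ne')]
  left; norm_num

lemma GG_est {a : ℂ × ℂ × ℂ → ℂ} (ha : ContinuousAt a 0) (a0 : a 0 = 0) {C : ℝ} (hC : 0 < C)
    (hb : ∀ᶠ p : ℂ × ℂ × ℂ in 𝓝 0, ‖a p‖ ≤ C * nn p) (l : ℂ × ℂ × ℂ →L[ℂ] ℂ)
    (hl : ∀ p, ‖l p‖ ^ 2 ≤ nn p) :
    ∀ᶠ p : ℂ × ℂ × ℂ in 𝓝 0, ‖GG a l p + l p / (2 * π)‖ ≤ 6 * (C + 1) * ‖l p‖ * nn p := by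
  obtain ⟨r, hr, hL⟩ := Lg_est
  have h1 : ∀ᶠ p : ℂ × ℂ × ℂ in 𝓝 0, ‖a p‖ < r := by
    apply (ha.norm).eventually_lt_const
    change ‖a 0‖ < r
    rw [a0, norm_zero]; exact hr
  have h2 : ∀ᶠ p : ℂ × ℂ × ℂ in 𝓝 0, ‖l p‖ < r := by
    have : ContinuousAt (fun p => ‖l p‖) 0 := l.continuous.norm.continuousAt
    apply this.eventually_lt_const
    change ‖l 0‖ < r
    rw [map_zero, norm_zero]; exact hr
  filter_upwards [hb, h1, h2] with p b1 b2 b5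
  have b3 := hL (a p) (l p) b2 b5
  have e1 : GG a l p + l p / (2 * π) = -(1 / (2 * π)) * (Lg (π / 2 - a p) (l p) - l p) := by
    rw [GG]; ring
  rw [e1, norm_mul, norm_neg]
  have e2 : ‖(1 / (2 * π) : ℂ)‖ ≤ 1 := by
    rw [norm_div, norm_one, norm_mul, Complex.norm_real, Real.norm_of_nonneg Real.pi_pos.le]
    rw [div_le_one (by simp [Real.pi_pos])]
    have : ‖(2:ℂ)‖ = 2 := by norm_num
    rw [this]
    linarith [Real.pi_gt_three]
  have e3 : ‖(1 / (2 * π) : ℂ)‖ * ‖Lg (π / 2 - a p) (l p) - l p‖ ≤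
      1 * ‖Lg (π / 2 - a p) (l p) - l p‖ := by gcongr
  refine e3.trans ?_
  rw [one_mul]
  refine b3.trans ?_
  have b4 : ‖a p‖ + ‖l p‖ ^ 2 ≤ (C + 1) * nn p := by
    have := hl p
    nlinarith
  calc 6 * ‖l p‖ * (‖a p‖ + ‖l p‖ ^ 2) ≤ 6 * ‖l p‖ * ((C + 1) * nn p) := by
        gcongr
    _ = 6 * (C + 1) * ‖l p‖ * nn p := by ring

lemma nn_smul (t : ℂ) (v : ℂ × ℂ × ℂ) : nn (t • v) = ‖t‖ ^ 2 * nn v := by
  unfold nn
  simp only [Prod.smul_fst, Prod.smul_snd, smul_eq_mul, norm_mul]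
  ring

lemma GG_deriv_zero {a : ℂ × ℂ × ℂ → ℂ} (ha : AnalyticAt ℂ a 0) (a0 : a 0 = 0) {C : ℝ}
    (hC : 0 < C) (hb : ∀ᶠ p : ℂ × ℂ × ℂ in 𝓝 0, ‖a p‖ ≤ C * nn p) (l : ℂ × ℂ × ℂ →L[ℂ] ℂ)
    (hl : ∀ p, ‖l p‖ ^ 2 ≤ nn p) (v : ℂ × ℂ × ℂ) (hv : l v = 1) :
    fderiv ℂ (GG a l) 0 v = -(1 / (2 * π)) := by
  have hG := (GG_an ha a0 l).differentiableAt
  have hline : HasDerivAt (fun t : ℂ => t • v) v 0 := by
    have := (hasDerivAt_id (0 : ℂ)).smul_const v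
    simpa using this
  have h1 : HasDerivAt (fun t : ℂ => GG a l (t • v)) (fderiv ℂ (GG a l) 0 v) 0 := by
    have hF : HasFDerivAt (GG a l) (fderiv ℂ (GG a l) 0) ((0 : ℂ) • v) := by
      rw [zero_smul]; exact hG.hasFDerivAt
    exact HasFDerivAt.comp_hasDerivAt (x := (0 : ℂ)) (f := fun t : ℂ => t • v) (l := GG a l) hF
      hline
  have hcv : Tendsto (fun t : ℂ => t • v) (𝓝 0) (𝓝 0) := by
    have := hline.continuousAt.tendsto
    simpa using this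
  have h := hcv.eventually (GG_est ha.continuousAt a0 hC hb l hl)
  have h2 : HasDerivAt (fun t : ℂ => GG a l (t • v) + t / (2 * π)) 0 0 := by
    have : (fun t : ℂ => GG a l (t • v) + t / (2 * π)) =O[𝓝 0] fun t : ℂ => ‖t - 0‖ ^ 3 := by
      apply Asymptotics.IsBigO.of_bound (6 * (C + 1) * nn v)
      filter_upwards [h] with t ht
      rw [map_smul, hv, smul_eq_mul, mul_one, nn_smul] at ht
      simp only [sub_zero, norm_pow, norm_norm]
      refine ht.trans (le_of_eq (by ring))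
    have h3 := this.hasFDerivAt (𝕜 := ℂ) (by norm_num)
    simpa using h3.hasDerivAt
  have h3 : HasDerivAt (fun t : ℂ => GG a l (t • v) + t / (2 * π))
      (fderiv ℂ (GG a l) 0 v + 1 / (2 * π)) 0 :=
    HasDerivAt.add (f := fun t : ℂ => GG a l (t • v)) (g := fun z : ℂ => z / (2 * π)) h1
      ((hasDerivAt_id (0:ℂ)).div_const (2 * π : ℂ))
  have := h3.unique h2
  linear_combination this

lemma GG_conc {a : ℂ × ℂ × ℂ → ℂ} (ha : AnalyticAt ℂ a 0) (a0 : a 0 = 0) {C : ℝ}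
    (hC : 0 < C) (hb : ∀ᶠ p : ℂ × ℂ × ℂ in 𝓝 0, ‖a p‖ ≤ C * nn p) (l : ℂ × ℂ × ℂ →L[ℂ] ℂ)
    (hl : ∀ p, ‖l p‖ ^ 2 ≤ nn p) (v : ℂ × ℂ × ℂ) (hv : l v = 1) :
    ∀ᶠ p : ℂ × ℂ × ℂ in 𝓝 0, (fderiv ℂ (GG a l) p v).re ≤ -(1 / (4 * π)) := by
  have h1 : ContinuousAt (fun p : ℂ × ℂ × ℂ => (fderiv ℂ (GG a l) p v).re) 0 := by
    have := (GG_an ha a0 l).fderiv.continuousAt
    exact Complex.continuous_re.continuousAt.comp' (this.clm_apply continuousAt_const)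
  have h2 : (fderiv ℂ (GG a l) 0 v).re < -(1 / (4 * π)) := by
    rw [GG_deriv_zero ha a0 hC hb l hl v hv,
      show (-(1 / (2 * π)) : ℂ) = ((-(1 / (2 * π)) : ℝ) : ℂ) by push_cast; rfl,
      Complex.ofReal_re]
    have : 1 / (4 * π) < 1 / (2 * π) := by
      apply one_div_lt_one_div_of_lt <;> linarith [Real.pi_pos]
    linarith
  exact (h1.eventually_lt_const h2).mono fun p hp => hp.le

/-! ### Slices -/

lemma slice1 (F : ℂ × ℂ × ℂ → ℂ) (p : ℂ × ℂ × ℂ) (hp : DifferentiableAt ℂ F p) :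
    HasDerivAt (fun z => F (z, p.2.1, p.2.2)) (fderiv ℂ F p (1, 0, 0)) p.1 := by
  have h1 : HasDerivAt (fun z : ℂ => ((z, p.2.1, p.2.2) : ℂ × ℂ × ℂ)) (1, 0, 0) p.1 :=
    (hasDerivAt_id p.1).prodMk ((hasDerivAt_const p.1 p.2.1).prodMk (hasDerivAt_const p.1 p.2.2))
  exact HasFDerivAt.comp_hasDerivAt (x := p.1) (f := fun z : ℂ => ((z, p.2.1, p.2.2) : ℂ × ℂ × ℂ))
    (l := F) hp.hasFDerivAt h1

lemma slice3 (F : ℂ × ℂ × ℂ → ℂ) (p : ℂ × ℂ × ℂ) (hp : DifferentiableAt ℂ F p) :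
    HasDerivAt (fun z => F (p.1, p.2.1, z)) (fderiv ℂ F p (0, 0, 1)) p.2.2 := by
  have h1 : HasDerivAt (fun z : ℂ => ((p.1, p.2.1, z) : ℂ × ℂ × ℂ)) (0, 0, 1) p.2.2 :=
    (hasDerivAt_const p.2.2 p.1).prodMk ((hasDerivAt_const p.2.2 p.2.1).prodMk
      (hasDerivAt_id p.2.2))
  exact HasFDerivAt.comp_hasDerivAt (x := p.2.2)
    (f := fun z : ℂ => ((p.1, p.2.1, z) : ℂ × ℂ × ℂ)) (l := F) hp.hasFDerivAt h1

/-- first coordinate -/
noncomputable def l1 : ℂ × ℂ × ℂ →L[ℂ] ℂ := ContinuousLinearMap.fst ℂ ℂ (ℂ × ℂ)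

/-- third coordinate -/
noncomputable def l3 : ℂ × ℂ × ℂ →L[ℂ] ℂ :=
  (ContinuousLinearMap.snd ℂ ℂ ℂ).comp (ContinuousLinearMap.snd ℂ ℂ (ℂ × ℂ))

lemma l1_apply (p : ℂ × ℂ × ℂ) : l1 p = p.1 := rfl
lemma l3_apply (p : ℂ × ℂ × ℂ) : l3 p = p.2.2 := rfl

lemma l1_nn (p : ℂ × ℂ × ℂ) : ‖l1 p‖ ^ 2 ≤ nn p := by
  rw [l1_apply, nn]
  nlinarith [sq_nonneg ‖p.1‖, sq_nonneg ‖p.2.1‖, sq_nonneg ‖p.2.2‖]

lemma l3_nn (p : ℂ × ℂ × ℂ) : ‖l3 p‖ ^ 2 ≤ nn p := by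
  rw [l3_apply, nn]
  nlinarith [sq_nonneg ‖p.1‖, sq_nonneg ‖p.2.1‖, sq_nonneg ‖p.2.2‖]

/-! ### The value at the origin -/

lemma int_log_sin : ∫ t in (0:ℝ)..1, Real.log (2 * Real.sin (π / 2 * t)) = 0 := by
  have h1 : ∫ t in (0:ℝ)..1, Real.log (2 * Real.sin (π / 2 * t)) =
      ∫ t in (0:ℝ)..1, (Real.log 2 + Real.log (Real.sin (π / 2 * t))) := by
    apply intervalIntegral.integral_congr_ae
    filter_upwards with t ht
    rw [Set.uIoc_of_le zero_le_one] at ht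
    have hp := Real.pi_pos
    have hs : 0 < Real.sin (π / 2 * t) := by
      apply Real.sin_pos_of_pos_of_lt_pi
      · have := ht.1; positivity
      · have := ht.2
        nlinarith
    rw [Real.log_mul (by norm_num) hs.ne']
  have hint : IntervalIntegrable (fun t => Real.log (Real.sin (π / 2 * t))) MeasureTheory.volume
      0 1 := by
    have h2 : IntervalIntegrable (fun x => Real.log (Real.sin x)) MeasureTheory.volume 0 (π / 2) :=
      intervalIntegrable_log_sin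
    have h3 := h2.comp_mul_left (c := π / 2)
    have e1 : (0 : ℝ) / (π / 2) = 0 := by simp
    have e2 : (π / 2) / (π / 2) = 1 := div_self (by positivity)
    rwa [e1, e2] at h3
  rw [h1, intervalIntegral.integral_add (by simp) hint]
  have h4 := intervalIntegral.integral_comp_mul_left (a := 0) (b := 1)
    (fun x => Real.log (Real.sin x)) (c := π / 2) (by positivity)
  simp only [mul_zero, mul_one] at h4
  rw [h4, integral_log_sin_zero_pi_div_two]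
  simp only [intervalIntegral.integral_const, smul_eq_mul]
  have := Real.pi_pos.ne'
  field_simp
  ring

lemma rr_ss : rrF (1 / 4) 0 + 2 * ssF (1 / 4) = 0 := by
  have hp := Real.pi_pos
  have e1 : ∫ t in (0:ℝ)..1, Complex.log (2 * Complex.cos 0 +
      2 * Complex.cos (2 * π * (1 / 4) * t)) =
      ((∫ t in (0:ℝ)..1, 2 * Real.log (2 * Real.cos (π / 4 * t)) : ℝ) : ℂ) := by
    rw [← intervalIntegral.integral_ofReal]
    apply intervalIntegral.integral_congr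
    intro t ht
    rw [Set.uIcc_of_le zero_le_one] at ht
    have hc : 0 < Real.cos (π / 4 * t) := by
      apply Real.cos_pos_of_mem_Ioo
      constructor
      · have := ht.1
        have h5 : 0 ≤ π / 4 * t := by positivity
        linarith
      · have := ht.2
        nlinarith
    have h2 : (2 * Complex.cos 0 + 2 * Complex.cos (2 * π * (1 / 4) * t) : ℂ) =
        (((2 * Real.cos (π / 4 * t)) ^ 2 : ℝ) : ℂ) := by
      rw [show (2 * π * (1 / 4) * t : ℂ) = 2 * ((π / 4 * t : ℝ) : ℂ) by push_cast; ring,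
        Complex.cos_two_mul, Complex.cos_zero, ← Complex.ofReal_cos]
      push_cast; ring
    simp only
    rw [h2, ← Complex.ofReal_log (by positivity), Real.log_pow]
    push_cast; ring
  have e2 : ∫ t in (0:ℝ)..1, Complex.log (2 * Complex.sin (π * (1 / 4) * t)) =
      ((∫ t in (0:ℝ)..1, Real.log (2 * Real.sin (π / 4 * t)) : ℝ) : ℂ) := by
    rw [← intervalIntegral.integral_ofReal]
    apply intervalIntegral.integral_congr
    intro t ht
    rw [Set.uIcc_of_le zero_le_one] at ht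
    have hs : 0 ≤ Real.sin (π / 4 * t) := by
      apply Real.sin_nonneg_of_nonneg_of_le_pi
      · have := ht.1; positivity
      · have := ht.2
        nlinarith
    have h2 : (2 * Complex.sin (π * (1 / 4) * t) : ℂ) = ((2 * Real.sin (π / 4 * t) : ℝ) : ℂ) := by
      rw [show (π * (1 / 4) * t : ℂ) = ((π / 4 * t : ℝ) : ℂ) by push_cast; ring,
        ← Complex.ofReal_sin]
      push_cast; ring
    simp only
    rw [h2, ← Complex.ofReal_log (by positivity)]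
  have hi1 : IntervalIntegrable (fun t => Real.log (2 * Real.cos (π / 4 * t)))
      MeasureTheory.volume 0 1 := by
    apply ContinuousOn.intervalIntegrable
    rw [Set.uIcc_of_le zero_le_one]
    apply ContinuousOn.log (by fun_prop)
    intro t ht
    have hc : 0 < Real.cos (π / 4 * t) := by
      apply Real.cos_pos_of_mem_Ioo
      constructor
      · have := ht.1
        have h5 : 0 ≤ π / 4 * t := by positivity
        linarith
      · have := ht.2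
        nlinarith
    positivity
  have hint : IntervalIntegrable (fun t => Real.log (Real.sin (π / 4 * t))) MeasureTheory.volume
      0 1 := by
    have h2 : IntervalIntegrable (fun x => Real.log (Real.sin x)) MeasureTheory.volume 0 (π / 4) :=
      intervalIntegrable_log_sin
    have h3 := h2.comp_mul_left (c := π / 4)
    have e1 : (0 : ℝ) / (π / 4) = 0 := by simp
    have e2 : (π / 4) / (π / 4) = 1 := div_self (by positivity)
    rwa [e1, e2] at h3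
  have hsum : (∫ t in (0:ℝ)..1, Real.log (2 * Real.sin (π / 2 * t))) =
      (∫ t in (0:ℝ)..1, Real.log (2 * Real.cos (π / 4 * t))) +
      ∫ t in (0:ℝ)..1, Real.log (2 * Real.sin (π / 4 * t)) := by
    have hi2 : IntervalIntegrable (fun t => Real.log (2 * Real.sin (π / 4 * t)))
        MeasureTheory.volume 0 1 := by
      have h3 : IntervalIntegrable (fun t => Real.log 2 + Real.log (Real.sin (π / 4 * t)))
          MeasureTheory.volume 0 1 := IntervalIntegrable.add (by simp) hint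
      refine h3.congr ?_
      rw [Set.uIoc_of_le zero_le_one]
      intro t ht
      have hs : 0 < Real.sin (π / 4 * t) := by
        apply Real.sin_pos_of_pos_of_lt_pi
        · have := ht.1; positivity
        · have := ht.2
          nlinarith
      simp only
      rw [Real.log_mul (by norm_num) hs.ne']
    rw [← intervalIntegral.integral_add hi1 hi2]
    apply intervalIntegral.integral_congr_ae
    filter_upwards with t ht
    rw [Set.uIoc_of_le zero_le_one] at ht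
    have hs : 0 < Real.sin (π / 4 * t) := by
      apply Real.sin_pos_of_pos_of_lt_pi
      · have := ht.1; positivity
      · have := ht.2
        nlinarith
    have hc : 0 < Real.cos (π / 4 * t) := by
      apply Real.cos_pos_of_mem_Ioo
      constructor
      · have := ht.1
        have h5 : 0 ≤ π / 4 * t := by positivity
        linarith
      · have := ht.2
        nlinarith
    rw [← Real.log_mul (by positivity) (by positivity)]
    congr 1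
    rw [show π / 2 * t = 2 * (π / 4 * t) by ring, Real.sin_two_mul]
    ring
  rw [int_log_sin] at hsum
  rw [rrF, ssF, e1, e2, intervalIntegral.integral_const_mul]
  have h6 : (∫ t in (0:ℝ)..1, Real.log (2 * Real.cos (π / 4 * t))) =
      -∫ t in (0:ℝ)..1, Real.log (2 * Real.sin (π / 4 * t)) := by linarith
  rw [h6]
  push_cast
  ring

/-! ### The main theorem -/

lemma ss_diff (p : ℂ × ℂ × ℂ)
    (hdl : DifferentiableAt ℂ (fun p : ℂ × ℂ × ℂ => dl p.1 p.2.1 p.2.2) p)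
    (h1 : DifferentiableAt ℂ (fun p : ℂ × ℂ => rrF p.1 p.2) (dl p.1 p.2.1 p.2.2, p.1))
    (h2 : DifferentiableAt ℂ (fun p : ℂ × ℂ => rrF p.1 p.2) (dl p.1 p.2.1 p.2.2, p.2.1))
    (h4 : DifferentiableAt ℂ (fun p : ℂ × ℂ => rrF p.1 p.2)
      (1 / 2 - dl p.1 p.2.1 p.2.2, p.2.2))
    (h3 : DifferentiableAt ℂ ssF (dl p.1 p.2.1 p.2.2)) :
    DifferentiableAt ℂ (fun p : ℂ × ℂ × ℂ => ss p.1 p.2.1 p.2.2) p := by
  unfold ss
  have d1 : DifferentiableAt ℂ (fun p : ℂ × ℂ × ℂ => p.1) p := (an1 p).differentiableAt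
  have d2 : DifferentiableAt ℂ (fun p : ℂ × ℂ × ℂ => p.2.1) p := (an2 p).differentiableAt
  have d3 : DifferentiableAt ℂ (fun p : ℂ × ℂ × ℂ => p.2.2) p := (an3 p).differentiableAt
  have a1 : DifferentiableAt ℂ (fun p : ℂ × ℂ × ℂ => rrF (dl p.1 p.2.1 p.2.2) p.1) p :=
    DifferentiableAt.comp (g := fun p : ℂ × ℂ => rrF p.1 p.2)
      (f := fun p : ℂ × ℂ × ℂ => (dl p.1 p.2.1 p.2.2, p.1)) p h1 (hdl.prodMk d1)
  have a2 : DifferentiableAt ℂ (fun p : ℂ × ℂ × ℂ => rrF (dl p.1 p.2.1 p.2.2) p.2.1) p :=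
    DifferentiableAt.comp (g := fun p : ℂ × ℂ => rrF p.1 p.2)
      (f := fun p : ℂ × ℂ × ℂ => (dl p.1 p.2.1 p.2.2, p.2.1)) p h2 (hdl.prodMk d2)
  have a4 : DifferentiableAt ℂ (fun p : ℂ × ℂ × ℂ => rrF (1 / 2 - dl p.1 p.2.1 p.2.2) p.2.2) p :=
    DifferentiableAt.comp (g := fun p : ℂ × ℂ => rrF p.1 p.2)
      (f := fun p : ℂ × ℂ × ℂ => (1 / 2 - dl p.1 p.2.1 p.2.2, p.2.2)) p h4
      ((hdl.const_sub _).prodMk d3)
  have a3 : DifferentiableAt ℂ (fun p : ℂ × ℂ × ℂ => ssF (dl p.1 p.2.1 p.2.2)) p :=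
    DifferentiableAt.comp (g := ssF) (f := fun p : ℂ × ℂ × ℂ => dl p.1 p.2.1 p.2.2) p h3 hdl
  exact ((a1.add a2).add a4).sub (a3.const_mul 2)

theorem sd3_of : S_RRD → Pool.Agent.Y472.S_SD3 := by
  rintro ⟨ρ, hρ, hR, hS, hD, hZ⟩
  have hpi : (0:ℝ) < π := Real.pi_pos
  obtain ⟨C₁, hC₁, hb⟩ := aa_bound
  have hbn : ∀ᶠ p : ℂ × ℂ × ℂ in 𝓝 0, ‖-aa p‖ ≤ C₁ * nn p := by simpa using hb
  have aan : AnalyticAt ℂ (fun p => -aa p) 0 := aa_an.neg
  have aan0 : (fun p => -aa p) 0 = 0 := by simp [aa_zero]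
  have cdl : ContinuousAt (fun p : ℂ × ℂ × ℂ => dl p.1 p.2.1 p.2.2) 0 := dl_an.continuousAt
  have d0 : dl (0 : ℂ × ℂ × ℂ).1 (0 : ℂ × ℂ × ℂ).2.1 (0 : ℂ × ℂ × ℂ).2.2 = 1 / 4 := dl_zero
  have e1 : ∀ᶠ p : ℂ × ℂ × ℂ in 𝓝 0, dl p.1 p.2.1 p.2.2 ∈ ball (1 / 4 : ℂ) ρ := by
    apply cdl.eventually_mem
    rw [d0]; exact Metric.ball_mem_nhds _ hρ
  have hb' : ∀ δ : ℂ, δ ∈ ball (1 / 4 : ℂ) ρ → 1 / 2 - δ ∈ ball (1 / 4 : ℂ) ρ := by
    intro δ hδ
    rw [mem_ball_iff_norm] at hδ ⊢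
    rw [show (1 / 2 - δ - 1 / 4 : ℂ) = -(δ - 1 / 4) by ring, norm_neg]
    exact hδ
  have e2 : ∀ᶠ p : ℂ × ℂ × ℂ in 𝓝 0, p.1 ∈ ball (0 : ℂ) ρ := by
    apply ((an1 0).continuousAt).eventually_mem
    exact Metric.ball_mem_nhds _ hρ
  have e3 : ∀ᶠ p : ℂ × ℂ × ℂ in 𝓝 0, p.2.1 ∈ ball (0 : ℂ) ρ := by
    apply ((an2 0).continuousAt).eventually_mem
    exact Metric.ball_mem_nhds _ hρ
  have e3' : ∀ᶠ p : ℂ × ℂ × ℂ in 𝓝 0, p.2.2 ∈ ball (0 : ℂ) ρ := by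
    apply ((an3 0).continuousAt).eventually_mem
    exact Metric.ball_mem_nhds _ hρ
  have e4 : ∀ᶠ p : ℂ × ℂ × ℂ in 𝓝 0,
      DifferentiableAt ℂ (fun p : ℂ × ℂ × ℂ => dl p.1 p.2.1 p.2.2) p :=
    dl_an.eventually_analyticAt.mono fun p hp => hp.differentiableAt
  have e5 : ∀ᶠ p : ℂ × ℂ × ℂ in 𝓝 0, ‖dl p.1 p.2.1 p.2.2 - 1 / 4‖ < 1 / 16 := by
    have : ContinuousAt (fun p : ℂ × ℂ × ℂ => ‖dl p.1 p.2.1 p.2.2 - 1 / 4‖) 0 :=
      (cdl.sub continuousAt_const).norm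
    apply this.eventually_lt_const
    change ‖dl (0 : ℂ × ℂ × ℂ).1 (0 : ℂ × ℂ × ℂ).2.1 (0 : ℂ × ℂ × ℂ).2.2 - 1 / 4‖ < 1 / 16
    rw [d0]; simp
  have e6 : ∀ᶠ p : ℂ × ℂ × ℂ in 𝓝 0, DifferentiableAt ℂ (GG aa l1) p :=
    (GG_an aa_an aa_zero l1).eventually_analyticAt.mono fun p hp => hp.differentiableAt
  have e6' : ∀ᶠ p : ℂ × ℂ × ℂ in 𝓝 0, DifferentiableAt ℂ (GG (fun p => -aa p) l3) p :=
    (GG_an aan aan0 l3).eventually_analyticAt.mono fun p hp => hp.differentiableAt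
  have hprod : ∀ δ ∈ ball (1 / 4 : ℂ) ρ, ∀ ψ ∈ ball (0 : ℂ) ρ,
      DifferentiableAt ℂ (fun p : ℂ × ℂ => rrF p.1 p.2) (δ, ψ) := by
    intro δ hδ ψ hψ
    exact (hR (δ, ψ) ⟨hδ, hψ⟩).differentiableAt
      ((isOpen_ball.prod isOpen_ball).mem_nhds ⟨hδ, hψ⟩)
  have hsing : ∀ δ ∈ ball (1 / 4 : ℂ) ρ, DifferentiableAt ℂ ssF δ := fun δ hδ =>
    (hS δ hδ).differentiableAt (isOpen_ball.mem_nhds hδ)
  have e7 : ∀ᶠ p : ℂ × ℂ × ℂ in 𝓝 0,
      DifferentiableAt ℂ (fun p : ℂ × ℂ × ℂ => ss p.1 p.2.1 p.2.2) p := by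
    filter_upwards [e1, e2, e3, e3', e4] with p h1 h2 h3 h3' h4
    exact ss_diff p h4 (hprod _ h1 _ h2) (hprod _ h1 _ h3) (hprod _ (hb' _ h1) _ h3')
      (hsing _ h1)
  have e8 : ∀ᶠ p : ℂ × ℂ × ℂ in 𝓝 0, ‖ss p.1 p.2.1 p.2.2‖ < ‖ss 0 0 0‖ + 1 := by
    have : ContinuousAt (fun p : ℂ × ℂ × ℂ => ‖ss p.1 p.2.1 p.2.2‖) 0 :=
      e7.self_of_nhds.continuousAt.norm
    apply this.eventually_lt_const
    simp
  have hcos : ∀ δ : ℂ, Complex.cos (2 * π * (1 / 2 - δ)) = -Complex.cos (2 * π * δ) := by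
    intro δ
    rw [show (2 * π * (1 / 2 - δ) : ℂ) = π - 2 * π * δ by ring, Complex.cos_pi_sub]
  -- derivative in the first variable
  have e9 : ∀ᶠ p : ℂ × ℂ × ℂ in 𝓝 0,
      HasDerivAt (fun z => ss z p.2.1 p.2.2) (GG aa l1 (p.1, p.2.1, p.2.2)) p.1 := by
    filter_upwards [e1, e2, e3, e3', e4, dcrit_ev] with p h1 h2 h3 h3' h4 h5
    have hd : HasDerivAt (fun z => dl z p.2.1 p.2.2)
        (fderiv ℂ (fun p : ℂ × ℂ × ℂ => dl p.1 p.2.1 p.2.2) p (1, 0, 0)) p.1 :=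
      slice1 (fun p : ℂ × ℂ × ℂ => dl p.1 p.2.1 p.2.2) p h4
    set d' := fderiv ℂ (fun p : ℂ × ℂ × ℂ => dl p.1 p.2.1 p.2.2) p (1, 0, 0) with hd'
    obtain ⟨q1, q2, q3⟩ := hD _ h1 _ h2
    obtain ⟨q4, q5, -⟩ := hD _ h1 _ h3
    obtain ⟨q6, q7, -⟩ := hD _ (hb' _ h1) _ h3'
    have r1 := rrF_comp _ _ _ _ (hprod _ h1 _ h2) q1 q2 (fun z => dl z p.2.1 p.2.2)
      (fun z => z) p.1 d' 1 hd (hasDerivAt_id _) rfl rfl
    have r2 := rrF_comp _ _ _ _ (hprod _ h1 _ h3) q4 q5 (fun z => dl z p.2.1 p.2.2)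
      (fun _ => p.2.1) p.1 d' 0 hd (hasDerivAt_const _ _) rfl rfl
    have r5 := rrF_comp _ _ _ _ (hprod _ (hb' _ h1) _ h3') q6 q7
      (fun z => 1 / 2 - dl z p.2.1 p.2.2)
      (fun _ => p.2.2) p.1 (-d') 0 (hd.const_sub _) (hasDerivAt_const _ _) rfl rfl
    have r3 : HasDerivAt (fun z => ssF (dl z p.2.1 p.2.2))
      (Complex.log (2 * Complex.sin (π * dl p.1 p.2.1 p.2.2)) * d')
      p.1 := HasDerivAt.comp (h₂ := ssF) (h := fun z => dl z p.2.1 p.2.2) p.1 q3 hd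
    have r4 := ((r1.add r2).add r5).sub (r3.const_mul 2)
    refine r4.congr_deriv ?_
    rw [GG, l1_apply, hcos]
    have e10 := two_pi_dl p.1 p.2.1 p.2.2
    simp only
    rw [← e10]
    have e11 : (2 * Complex.cos p.2.2 + 2 * -Complex.cos (2 * π * dl p.1 p.2.1 p.2.2) : ℂ) =
      2 * Complex.cos p.2.2 - 2 * Complex.cos (2 * π * dl p.1 p.2.1 p.2.2) := by ring
    rw [e11]
    linear_combination d' * h5
  -- derivative in the third variable
  have e9' : ∀ᶠ p : ℂ × ℂ × ℂ in 𝓝 0,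
      HasDerivAt (fun z => ss p.1 p.2.1 z) (GG (fun p => -aa p) l3 (p.1, p.2.1, p.2.2)) p.2.2 := by
    filter_upwards [e1, e2, e3, e3', e4, dcrit_ev] with p h1 h2 h3 h3' h4 h5
    have hd : HasDerivAt (fun z => dl p.1 p.2.1 z)
        (fderiv ℂ (fun p : ℂ × ℂ × ℂ => dl p.1 p.2.1 p.2.2) p (0, 0, 1)) p.2.2 :=
      slice3 (fun p : ℂ × ℂ × ℂ => dl p.1 p.2.1 p.2.2) p h4
    set d' := fderiv ℂ (fun p : ℂ × ℂ × ℂ => dl p.1 p.2.1 p.2.2) p (0, 0, 1) with hd'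
    obtain ⟨q1, q2, q3⟩ := hD _ h1 _ h2
    obtain ⟨q4, q5, -⟩ := hD _ h1 _ h3
    obtain ⟨q6, q7, -⟩ := hD _ (hb' _ h1) _ h3'
    have r1 := rrF_comp _ _ _ _ (hprod _ h1 _ h2) q1 q2 (fun z => dl p.1 p.2.1 z)
      (fun _ => p.1) p.2.2 d' 0 hd (hasDerivAt_const _ _) rfl rfl
    have r2 := rrF_comp _ _ _ _ (hprod _ h1 _ h3) q4 q5 (fun z => dl p.1 p.2.1 z)
      (fun _ => p.2.1) p.2.2 d' 0 hd (hasDerivAt_const _ _) rfl rfl
    have r5 := rrF_comp _ _ _ _ (hprod _ (hb' _ h1) _ h3') q6 q7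
      (fun z => 1 / 2 - dl p.1 p.2.1 z)
      (fun z => z) p.2.2 (-d') 1 (hd.const_sub _) (hasDerivAt_id _) rfl rfl
    have r3 : HasDerivAt (fun z => ssF (dl p.1 p.2.1 z))
      (Complex.log (2 * Complex.sin (π * dl p.1 p.2.1 p.2.2)) * d')
      p.2.2 := HasDerivAt.comp (h₂ := ssF) (h := fun z => dl p.1 p.2.1 z) p.2.2 q3 hd
    have r4 := ((r1.add r2).add r5).sub (r3.const_mul 2)
    refine r4.congr_deriv ?_
    rw [GG, l3_apply, hcos]
    have e10 := two_pi_dl p.1 p.2.1 p.2.2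
    have e12 : (2 * π * (1 / 2 - dl p.1 p.2.1 p.2.2) : ℂ) =
        π / 2 - -aa (p.1, p.2.1, p.2.2) := by
      linear_combination -e10
    rw [e12]
    have e11 : (2 * Complex.cos p.2.2 + 2 * -Complex.cos (2 * π * dl p.1 p.2.1 p.2.2) : ℂ) =
      2 * Complex.cos p.2.2 - 2 * Complex.cos (2 * π * dl p.1 p.2.1 p.2.2) := by ring
    rw [e11]
    linear_combination d' * h5
  have t1 := GG_est aa_an.continuousAt aa_zero hC₁ hb l1 l1_nn
  have t3 := GG_est aan.continuousAt aan0 hC₁ hbn l3 l3_nn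
  have k1 := GG_conc aa_an aa_zero hC₁ hb l1 l1_nn (1, 0, 0) (by rw [l1_apply])
  have k3 := GG_conc aan aan0 hC₁ hbn l3 l3_nn (0, 0, 1) (by rw [l3_apply])
  obtain ⟨r, hr₀, H⟩ := ev_ball3 (e4.and (e5.and (e6.and (e7.and (e8.and (e9.and (hb.and
    (dcos_ev.and (dcrit_ev.and (k1.and (e6'.and (e9'.and (k3.and (t1.and t3))))))))))))))
  have hbet : ss 0 0 0 = ((2 * bet : ℝ) : ℂ) := by
    rw [ss, dl_zero, ← hZ, show (1 / 2 - 1 / 4 : ℂ) = 1 / 4 by norm_num]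
    linear_combination rr_ss
  set C₂ : ℝ := 6 * (C₁ + 1) with hC₂
  have hC₂0 : 0 < C₂ := by positivity
  have hin : ∀ z ∈ Rc (min 1 (r / 2)) (min 1 (r / 2)), ‖z‖ < r := by
    rintro z ⟨hz1, hz2⟩
    have h1 := Complex.norm_le_abs_re_add_abs_im z
    have h2 : min 1 (r / 2) ≤ r / 2 := min_le_right _ _
    linarith
  -- the second order expansion
  set D : ℂ → ℂ → ℂ → ℂ := fun x y z => ss x y z - (2 * bet - (x ^ 2 + y ^ 2 + z ^ 2) / (4 * π))
    with hDdef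
  have hsq : ∀ (A : ℂ) (x : ℂ), HasDerivAt (fun x : ℂ => (2 * bet - (x ^ 2 + A) / (4 * π) : ℂ))
      (-(x / (2 * π))) x := by
    intro A x
    have := (((hasDerivAt_pow 2 x).add_const A).div_const (4 * π : ℂ)).const_sub (2 * bet : ℂ)
    refine this.congr_deriv ?_
    have := pi_ne
    field_simp
    norm_num
    ring
  have hstep : ∀ x y z : ℂ, ‖x‖ < r → ‖y‖ < r → ‖z‖ < r →
      ‖D x y z - D 0 y z‖ ≤ C₂ * ‖x‖ ^ 2 * (‖x‖ ^ 2 + ‖y‖ ^ 2 + ‖z‖ ^ 2) := by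
    intro x y z hx hy hz
    have key := Convex.norm_image_sub_le_of_norm_hasDerivWithin_le
      (f := fun t => D t y z) (f' := fun t => GG aa l1 (t, y, z) + t / (2 * π))
      (C := C₂ * ‖x‖ * (‖x‖ ^ 2 + ‖y‖ ^ 2 + ‖z‖ ^ 2)) (s := closedBall (0:ℂ) ‖x‖) (x := 0)
      (y := x) ?_ ?_ (convex_closedBall _ _) (by simp) (by simp)
    · refine key.trans (le_of_eq ?_)
      rw [sub_zero]; ring
    · intro t ht
      have ht' : ‖t‖ < r := lt_of_le_of_lt (by simpa using ht) hx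
      have h9 := (H t y z ht' hy hz).2.2.2.2.2.1
      refine HasDerivAt.hasDerivWithinAt ?_
      have h10 := h9.sub (hsq (y ^ 2 + z ^ 2) t)
      have h11 : (fun t => D t y z) = fun t => ss t y z -
          (2 * bet - (t ^ 2 + (y ^ 2 + z ^ 2)) / (4 * π) : ℂ) := by
        funext t
        simp only [hDdef]; ring
      rw [h11]
      refine h10.congr_deriv ?_
      ring
    · intro t ht
      have ht1 : ‖t‖ ≤ ‖x‖ := by simpa using ht
      have ht' : ‖t‖ < r := lt_of_le_of_lt ht1 hx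
      refine ((H t y z ht' hy hz).2.2.2.2.2.2.2.2.2.2.2.2.2.1).trans ?_
      simp only [nn, l1_apply]
      gcongr
  have hstep3 : ∀ x y z : ℂ, ‖x‖ < r → ‖y‖ < r → ‖z‖ < r →
      ‖D x y z - D x y 0‖ ≤ C₂ * ‖z‖ ^ 2 * (‖x‖ ^ 2 + ‖y‖ ^ 2 + ‖z‖ ^ 2) := by
    intro x y z hx hy hz
    have key := Convex.norm_image_sub_le_of_norm_hasDerivWithin_le
      (f := fun t => D x y t) (f' := fun t => GG (fun p => -aa p) l3 (x, y, t) + t / (2 * π))
      (C := C₂ * ‖z‖ * (‖x‖ ^ 2 + ‖y‖ ^ 2 + ‖z‖ ^ 2)) (s := closedBall (0:ℂ) ‖z‖) (x := 0)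
      (y := z) ?_ ?_ (convex_closedBall _ _) (by simp) (by simp)
    · refine key.trans (le_of_eq ?_)
      rw [sub_zero]; ring
    · intro t ht
      have ht' : ‖t‖ < r := lt_of_le_of_lt (by simpa using ht) hz
      have h9 := (H x y t hx hy ht').2.2.2.2.2.2.2.2.2.2.2.1
      refine HasDerivAt.hasDerivWithinAt ?_
      have h10 := h9.sub (hsq (x ^ 2 + y ^ 2) t)
      have h11 : (fun t => D x y t) = fun t => ss x y t -
          (2 * bet - (t ^ 2 + (x ^ 2 + y ^ 2)) / (4 * π) : ℂ) := by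
        funext t
        simp only [hDdef]; ring
      rw [h11]
      refine h10.congr_deriv ?_
      ring
    · intro t ht
      have ht1 : ‖t‖ ≤ ‖z‖ := by simpa using ht
      have ht' : ‖t‖ < r := lt_of_le_of_lt ht1 hz
      refine ((H x y t hx hy ht').2.2.2.2.2.2.2.2.2.2.2.2.2.2).trans ?_
      simp only [nn, l3_apply]
      gcongr
  refine ⟨min 1 (r / 2), 1 / (4 * π), ‖ss 0 0 0‖ + 1 + C₁ + C₂, ss, dl, ?_⟩
  refine
    { hρ := ⟨lt_min one_pos (by positivity), min_le_left _ _⟩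
      hc := by positivity
      hC := by positivity
      san := ?_
      dan := ?_
      sbd := ?_
      sym := fun ψ _ ψ' _ χ _ => ss_symm _ _ _
      dsym := fun ψ _ ψ' _ χ _ => dl_symm _ _ _
      ev := fun ψ _ ψ' _ χ _ => ss_neg _ _ _
      evc := fun ψ _ ψ' _ χ _ => ss_negc _ _ _
      zero := hbet
      conc := ?_
      dl0 := dl_zero
      dclose := ?_
      dcos := ?_
      dcrit := ?_
      scrit := fun ψ _ ψ' _ χ _ => rfl
      sder := ?_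
      sderc := ?_
      low := ?_ }
  · rintro ⟨x, y, z⟩ ⟨hx, hy, hz⟩
    exact (H x y z (hin x hx) (hin y hy) (hin z hz)).2.2.2.1.differentiableWithinAt
  · rintro ⟨x, y, z⟩ ⟨hx, hy, hz⟩
    exact (H x y z (hin x hx) (hin y hy) (hin z hz)).1.differentiableWithinAt
  · intro x hx y hy z hz
    have := (H x y z (hin x hx) (hin y hy) (hin z hz)).2.2.2.2.1
    simp only at this
    linarith
  · intro x hx y hy z hz
    have h2 := H x y z (hin x hx) (hin y hy) (hin z hz)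
    constructor
    · have h1 : deriv (fun t => ss t y z) =ᶠ[𝓝 x] fun t => GG aa l1 (t, y, z) := by
        have : ball (0:ℂ) r ∈ 𝓝 x := isOpen_ball.mem_nhds (by simpa using hin x hx)
        filter_upwards [this] with t ht
        exact (H t y z (by simpa using ht) (hin y hy) (hin z hz)).2.2.2.2.2.1.deriv
      rw [h1.deriv_eq, (slice1 _ (x, y, z) h2.2.2.1).deriv]
      exact h2.2.2.2.2.2.2.2.2.2.1
    · have h1 : deriv (fun t => ss x y t) =ᶠ[𝓝 z] fun t => GG (fun p => -aa p) l3 (x, y, t) := by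
        have : ball (0:ℂ) r ∈ 𝓝 z := isOpen_ball.mem_nhds (by simpa using hin z hz)
        filter_upwards [this] with t ht
        exact (H x y t (hin x hx) (hin y hy) (by simpa using ht)).2.2.2.2.2.2.2.2.2.2.2.1.deriv
      rw [h1.deriv_eq, (slice3 _ (x, y, z) h2.2.2.2.2.2.2.2.2.2.2.1).deriv]
      exact h2.2.2.2.2.2.2.2.2.2.2.2.2.1
  · intro x hx y hy z hz
    have h2 := H x y z (hin x hx) (hin y hy) (hin z hz)
    refine ⟨h2.2.1.le, ?_⟩
    have h3 := h2.2.2.2.2.2.2.1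
    simp only [nn] at h3
    have h4 : dl x y z - 1 / 4 = -(aa (x, y, z) / (2 * π)) := by rw [dl]; ring
    have h5 : ‖(2 * π : ℂ)‖ = 2 * π := by
      rw [norm_mul, Complex.norm_real, Real.norm_of_nonneg hpi.le]; norm_num
    rw [h4, norm_neg, norm_div, h5]
    have h6 : ‖aa (x, y, z)‖ / (2 * π) ≤ ‖aa (x, y, z)‖ :=
      div_le_self (norm_nonneg _) (by linarith [Real.pi_gt_three])
    refine h6.trans (h3.trans ?_)
    gcongr
    linarith [norm_nonneg (ss 0 0 0)]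
  · intro x hx y hy z hz
    exact (H x y z (hin x hx) (hin y hy) (hin z hz)).2.2.2.2.2.2.2.1
  · intro x hx y hy z hz
    exact (H x y z (hin x hx) (hin y hy) (hin z hz)).2.2.2.2.2.2.2.2.1
  · intro x hx y hy z hz
    have h9 := (H x y z (hin x hx) (hin y hy) (hin z hz)).2.2.2.2.2.1
    rw [GG, l1_apply, ← two_pi_dl] at h9
    exact h9
  · intro x hx y hy z hz
    have h9 := (H x y z (hin x hx) (hin y hy) (hin z hz)).2.2.2.2.2.2.2.2.2.2.2.1
    rw [GG, l3_apply] at h9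
    have e12 : (π / 2 - -aa (x, y, z) : ℂ) = π - 2 * π * dl x y z := by
      rw [two_pi_dl]; ring
    rw [e12] at h9
    exact h9
  · intro x hx y hy z hz
    have hr0 : ‖(0 : ℂ)‖ < r := by simpa using hr₀
    have h1 := hstep x y z (hin x hx) (hin y hy) (hin z hz)
    have h2 := hstep y 0 z (hin y hy) hr0 (hin z hz)
    have h3' := hstep3 0 0 z hr0 hr0 (hin z hz)
    have h3 : D 0 y z = D y 0 z := by
      simp only [hDdef, ss_symm 0 y z]; ring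
    have h4 : D 0 0 0 = 0 := by
      simp only [hDdef, hbet]; push_cast; simp
    have h5 : ss x y z - (2 * bet - (x ^ 2 + y ^ 2 + z ^ 2) / (4 * π)) =
        (D x y z - D 0 y z) + (D y 0 z - D 0 0 z) + (D 0 0 z - D 0 0 0) := by
      rw [h4, h3]; simp only [hDdef]; ring
    rw [h5]
    refine (norm_add_le _ _).trans ((add_le_add ((norm_add_le _ _).trans (add_le_add h1 h2))
      h3').trans ?_)
    rw [norm_zero]
    have hx' := norm_nonneg x
    have hy' := norm_nonneg y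
    have hz' := norm_nonneg z
    set a := ‖x‖ with ha
    set b := ‖y‖ with hb
    set c := ‖z‖ with hc
    have h6 : a ^ 2 * (a ^ 2 + b ^ 2 + c ^ 2) + b ^ 2 * (b ^ 2 + 0 ^ 2 + c ^ 2) +
        c ^ 2 * (0 ^ 2 + 0 ^ 2 + c ^ 2) ≤ (a + b + c) ^ 4 := by
      have g1 : a ^ 2 * (a ^ 2 + b ^ 2 + c ^ 2) + b ^ 2 * (b ^ 2 + 0 ^ 2 + c ^ 2) +
        c ^ 2 * (0 ^ 2 + 0 ^ 2 + c ^ 2) ≤ (a ^ 2 + b ^ 2 + c ^ 2) ^ 2 := by
        have t1 : 0 ≤ a ^ 2 * b ^ 2 := by positivity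
        have t2 : 0 ≤ a ^ 2 * c ^ 2 := by positivity
        have t3 : 0 ≤ b ^ 2 * c ^ 2 := by positivity
        nlinarith
      have g2 : a ^ 2 + b ^ 2 + c ^ 2 ≤ (a + b + c) ^ 2 := by
        have t1 : 0 ≤ a * b := by positivity
        have t2 : 0 ≤ a * c := by positivity
        have t3 : 0 ≤ b * c := by positivity
        nlinarith
      calc _ ≤ (a ^ 2 + b ^ 2 + c ^ 2) ^ 2 := g1
        _ ≤ ((a + b + c) ^ 2) ^ 2 := by gcongr
        _ = _ := by ring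
    calc C₂ * a ^ 2 * (a ^ 2 + b ^ 2 + c ^ 2) + C₂ * b ^ 2 * (b ^ 2 + 0 ^ 2 + c ^ 2) +
        C₂ * c ^ 2 * (0 ^ 2 + 0 ^ 2 + c ^ 2)
        = C₂ * (a ^ 2 * (a ^ 2 + b ^ 2 + c ^ 2) + b ^ 2 * (b ^ 2 + 0 ^ 2 + c ^ 2) +
          c ^ 2 * (0 ^ 2 + 0 ^ 2 + c ^ 2)) := by ring
      _ ≤ C₂ * (a + b + c) ^ 4 := by gcongr
      _ ≤ _ := by
        gcongr
        linarith [norm_nonneg (ss 0 0 0)]

theorem sd3 : Pool.Agent.Y472.S_SD3 := sd3_of Pool.Agent.W398.HT.main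

end Pool.Agent.Y641.CB
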