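import Pool.Agent.Y472.B.Defs
import Pool.Agent.W177.HT.SD

/-!
# The critical value with three variables, part 1
-/

set_option autoImplicit false

namespace Pool.Agent.Y641.CB

open Filter Topology Metric
open Pool.Agent.W711.HT (rrF ssF Lg bet Rc S_RRD)
open Pool.Agent.W177.HT (asn sin_asn asn_zero asn_an norm_one_sub_cos norm_sin_le eq_zero_of_exp
  hasDerivAt_Lg cos_pi_div_four' Lg_est rrF_comp rrF_neg pi_ne)
open scoped Real

/-- sum of squares -/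
noncomputable def nn (p : ℂ × ℂ × ℂ) : ℝ := ‖p.1‖ ^ 2 + ‖p.2.1‖ ^ 2 + ‖p.2.2‖ ^ 2

lemma nn_nonneg (p : ℂ × ℂ × ℂ) : 0 ≤ nn p := by unfold nn; positivity

/-- the cosine of the critical angle -/
noncomputable def WW (p : ℂ × ℂ × ℂ) : ℂ :=
  (Complex.cos p.2.2 - Complex.cos p.1 * Complex.cos p.2.1) /
    (1 + Complex.cos p.2.2 + Complex.cos p.1 + Complex.cos p.2.1)

lemma WW_zero : WW 0 = 0 := by simp [WW]

lemma an1 (p : ℂ × ℂ × ℂ) : AnalyticAt ℂ (fun p : ℂ × ℂ × ℂ => p.1) p := analyticAt_fst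

lemma an2 (p : ℂ × ℂ × ℂ) : AnalyticAt ℂ (fun p : ℂ × ℂ × ℂ => p.2.1) p :=
  AnalyticAt.fun_comp (g := fun q : ℂ × ℂ => q.1) (f := fun p : ℂ × ℂ × ℂ => p.2)
    analyticAt_fst analyticAt_snd

lemma an3 (p : ℂ × ℂ × ℂ) : AnalyticAt ℂ (fun p : ℂ × ℂ × ℂ => p.2.2) p :=
  AnalyticAt.fun_comp (g := fun q : ℂ × ℂ => q.2) (f := fun p : ℂ × ℂ × ℂ => p.2)
    analyticAt_snd analyticAt_snd

lemma cos1 (p : ℂ × ℂ × ℂ) : AnalyticAt ℂ (fun p : ℂ × ℂ × ℂ => Complex.cos p.1) p :=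
  Complex.analyticAt_cos.fun_comp (an1 p)

lemma cos2 (p : ℂ × ℂ × ℂ) : AnalyticAt ℂ (fun p : ℂ × ℂ × ℂ => Complex.cos p.2.1) p :=
  Complex.analyticAt_cos.fun_comp (an2 p)

lemma cos3 (p : ℂ × ℂ × ℂ) : AnalyticAt ℂ (fun p : ℂ × ℂ × ℂ => Complex.cos p.2.2) p :=
  Complex.analyticAt_cos.fun_comp (an3 p)

lemma WW_an : AnalyticAt ℂ WW 0 := by
  unfold WW
  apply AnalyticAt.div
  · exact (cos3 0).sub ((cos1 0).mul (cos2 0))
  · exact ((analyticAt_const.add (cos3 0)).add (cos1 0)).add (cos2 0)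
  · simp; norm_num

lemma WW_symm (x y z : ℂ) : WW (x, y, z) = WW (y, x, z) := by
  simp only [WW]; ring_nf

lemma WW_neg (x y z : ℂ) : WW (-x, y, z) = WW (x, y, z) := by
  simp only [WW, Complex.cos_neg]

lemma WW_negc (x y z : ℂ) : WW (x, y, -z) = WW (x, y, z) := by
  simp only [WW, Complex.cos_neg]

noncomputable def aa (p : ℂ × ℂ × ℂ) : ℂ := asn (WW p)

lemma aa_zero : aa 0 = 0 := by rw [aa, WW_zero, asn_zero]

lemma aa_an : AnalyticAt ℂ aa 0 := by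
  unfold aa
  apply AnalyticAt.fun_comp (f := WW) (g := asn) _ WW_an
  rw [WW_zero]; exact asn_an

/-- the critical point -/
noncomputable def dl (x y z : ℂ) : ℂ := 1 / 4 - aa (x, y, z) / (2 * π)

/-- the critical value -/
noncomputable def ss (x y z : ℂ) : ℂ :=
  rrF (dl x y z) x + rrF (dl x y z) y + rrF (1 / 2 - dl x y z) z - 2 * ssF (dl x y z)

lemma dl_symm (x y z : ℂ) : dl x y z = dl y x z := by simp only [dl, aa, WW_symm x y z]

lemma dl_neg (x y z : ℂ) : dl (-x) y z = dl x y z := by simp only [dl, aa, WW_neg]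

lemma dl_negc (x y z : ℂ) : dl x y (-z) = dl x y z := by simp only [dl, aa, WW_negc]

lemma ss_symm (x y z : ℂ) : ss x y z = ss y x z := by
  simp only [ss, dl_symm x y z]; ring

lemma ss_neg (x y z : ℂ) : ss (-x) y z = ss x y z := by
  simp only [ss, dl_neg, rrF_neg]

lemma ss_negc (x y z : ℂ) : ss x y (-z) = ss x y z := by
  simp only [ss, dl_negc, rrF_neg]

lemma dl_zero : dl 0 0 0 = 1 / 4 := by
  have : aa (0, 0, 0) = 0 := aa_zero
  simp [dl, this]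

lemma dl_an : AnalyticAt ℂ (fun p : ℂ × ℂ × ℂ => dl p.1 p.2.1 p.2.2) 0 := by
  unfold dl
  apply analyticAt_const.sub
  apply AnalyticAt.div aa_an analyticAt_const
  simp [Real.pi_ne_zero]

lemma n1_le (p : ℂ × ℂ × ℂ) : ‖p.1‖ ≤ ‖p‖ := norm_fst_le p

lemma n2_le (p : ℂ × ℂ × ℂ) : ‖p.2.1‖ ≤ ‖p‖ := (norm_fst_le p.2).trans (norm_snd_le p)

lemma n3_le (p : ℂ × ℂ × ℂ) : ‖p.2.2‖ ≤ ‖p‖ := (norm_snd_le p.2).trans (norm_snd_le p)

lemma aa_bound : ∃ C : ℝ, 0 < C ∧ ∀ᶠ p : ℂ × ℂ × ℂ in 𝓝 0, ‖aa p‖ ≤ C * nn p := by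
  have h1 : ∃ C : ℝ, 0 < C ∧ ∀ᶠ w : ℂ in 𝓝 0, ‖asn w‖ ≤ C * ‖w‖ := by
    have := asn_an.differentiableAt.isBigO_sub
    obtain ⟨C, hC, h⟩ := this.exists_pos
    refine ⟨C, hC, ?_⟩
    filter_upwards [h.bound] with w hw
    simpa [asn_zero] using hw
  obtain ⟨C, hC, h1⟩ := h1
  refine ⟨C, hC, ?_⟩
  have h2 : Tendsto WW (𝓝 0) (𝓝 0) := by
    have := WW_an.continuousAt.tendsto
    rwa [WW_zero] at this
  have h34 : ∀ᶠ p : ℂ × ℂ × ℂ in 𝓝 0, ‖p‖ < 1 := by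
    have : ContinuousAt (fun p : ℂ × ℂ × ℂ => ‖p‖) 0 := continuous_norm.continuousAt
    apply this.eventually_lt_const
    simp
  have h5 : ∀ᶠ p : ℂ × ℂ × ℂ in 𝓝 0,
      2 < ‖1 + Complex.cos p.2.2 + Complex.cos p.1 + Complex.cos p.2.1‖ := by
    have : ContinuousAt (fun p : ℂ × ℂ × ℂ =>
        ‖1 + Complex.cos p.2.2 + Complex.cos p.1 + Complex.cos p.2.1‖) 0 := by
      fun_prop
    apply this.eventually_const_lt
    simp; norm_num
  filter_upwards [h2.eventually h1, h34, h5] with p hp h34 h5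
  have h3 : ‖p.1‖ ≤ 1 := (n1_le p).trans h34.le
  have h4 : ‖p.2.1‖ ≤ 1 := (n2_le p).trans h34.le
  have h6 : ‖p.2.2‖ ≤ 1 := (n3_le p).trans h34.le
  refine hp.trans ?_
  refine mul_le_mul_of_nonneg_left ?_ hC.le
  rw [WW, norm_div, div_le_iff₀ (by linarith)]
  have e1 := norm_one_sub_cos p.1 h3
  have e2 := norm_one_sub_cos p.2.1 h4
  have e6 := norm_one_sub_cos p.2.2 h6
  have e3 : ‖Complex.cos p.1‖ ≤ 2 := by
    have : Complex.cos p.1 = 1 - (1 - Complex.cos p.1) := by ring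
    rw [this]
    refine (norm_sub_le _ _).trans ?_
    rw [norm_one]
    nlinarith [norm_nonneg p.1]
  have e4 : Complex.cos p.2.2 - Complex.cos p.1 * Complex.cos p.2.1 =
      ((1 - Complex.cos p.1) + Complex.cos p.1 * (1 - Complex.cos p.2.1)) -
        (1 - Complex.cos p.2.2) := by ring
  rw [e4]
  refine (norm_sub_le _ _).trans ?_
  refine (add_le_add (norm_add_le _ _) le_rfl).trans ?_
  rw [norm_mul]
  have e5 : ‖Complex.cos p.1‖ * ‖1 - Complex.cos p.2.1‖ ≤ 2 * ‖p.2.1‖ ^ 2 :=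
    mul_le_mul e3 e2 (norm_nonneg _) (by norm_num)
  unfold nn
  nlinarith [sq_nonneg ‖p.1‖, sq_nonneg ‖p.2.1‖, sq_nonneg ‖p.2.2‖]

/-! ### The critical point equation -/

lemma two_pi_dl (x y z : ℂ) : 2 * π * dl x y z = π / 2 - aa (x, y, z) := by
  rw [dl]
  have : (π : ℂ) ≠ 0 := by simp [Real.pi_ne_zero]
  field_simp
  ring

lemma dcos_ev : ∀ᶠ p : ℂ × ℂ × ℂ in 𝓝 0, Complex.cos (2 * π * dl p.1 p.2.1 p.2.2) = WW p := by
  have h : ∀ᶠ p : ℂ × ℂ × ℂ in 𝓝 0, 1 - WW p ^ 2 ≠ 0 := by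
    have : ContinuousAt (fun p : ℂ × ℂ × ℂ => 1 - WW p ^ 2) 0 :=
      continuousAt_const.sub (WW_an.continuousAt.pow 2)
    apply this.eventually_ne
    simp [WW_zero]
  filter_upwards [h] with p hp
  rw [two_pi_dl, Complex.cos_pi_div_two_sub, aa, sin_asn _ hp]

lemma sin_an_dl : ContinuousAt (fun p : ℂ × ℂ × ℂ => Complex.sin (π * dl p.1 p.2.1 p.2.2)) 0 := by
  have := dl_an.continuousAt
  exact Complex.continuous_sin.continuousAt.comp' (continuousAt_const.mul this)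

lemma cos_an_dl :
    ContinuousAt (fun p : ℂ × ℂ × ℂ => Complex.cos (2 * π * dl p.1 p.2.1 p.2.2)) 0 := by
  have := dl_an.continuousAt
  exact Complex.continuous_cos.continuousAt.comp' (continuousAt_const.mul this)

lemma sin_pi_dl_zero : Complex.sin (π * dl 0 0 0) = (√2 / 2 : ℝ) := by
  rw [dl_zero, show (π : ℂ) * (1 / 4) = ((π / 4 : ℝ) : ℂ) by push_cast; ring,
    ← Complex.ofReal_sin, Real.sin_pi_div_four]

lemma cos_two_pi_dl_zero : Complex.cos (2 * π * dl 0 0 0) = 0 := by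
  rw [dl_zero, show (2 * π : ℂ) * (1 / 4) = π / 2 by ring, Complex.cos_pi_div_two]

lemma two_sin_dl_zero : 2 * Complex.sin (π * dl 0 0 0) = ((√2 : ℝ) : ℂ) := by
  rw [sin_pi_dl_zero]; push_cast; ring

lemma dcrit_ev : ∀ᶠ p : ℂ × ℂ × ℂ in 𝓝 0,
    Complex.log (2 * Complex.cos p.1 + 2 * Complex.cos (2 * π * dl p.1 p.2.1 p.2.2)) +
      Complex.log (2 * Complex.cos p.2.1 + 2 * Complex.cos (2 * π * dl p.1 p.2.1 p.2.2)) =
      Complex.log (2 * Complex.cos p.2.2 - 2 * Complex.cos (2 * π * dl p.1 p.2.1 p.2.2)) +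
      2 * Complex.log (2 * Complex.sin (π * dl p.1 p.2.1 p.2.2)) := by
  have c1 : ContinuousAt (fun p : ℂ × ℂ × ℂ => 2 * Complex.cos p.1 +
      2 * Complex.cos (2 * π * dl p.1 p.2.1 p.2.2)) 0 :=
    (by fun_prop : ContinuousAt (fun p : ℂ × ℂ × ℂ => 2 * Complex.cos p.1) 0).add
      (continuousAt_const.mul cos_an_dl)
  have c2 : ContinuousAt (fun p : ℂ × ℂ × ℂ => 2 * Complex.cos p.2.1 +
      2 * Complex.cos (2 * π * dl p.1 p.2.1 p.2.2)) 0 :=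
    (by fun_prop : ContinuousAt (fun p : ℂ × ℂ × ℂ => 2 * Complex.cos p.2.1) 0).add
      (continuousAt_const.mul cos_an_dl)
  have c4 : ContinuousAt (fun p : ℂ × ℂ × ℂ => 2 * Complex.cos p.2.2 -
      2 * Complex.cos (2 * π * dl p.1 p.2.1 p.2.2)) 0 :=
    (by fun_prop : ContinuousAt (fun p : ℂ × ℂ × ℂ => 2 * Complex.cos p.2.2) 0).sub
      (continuousAt_const.mul cos_an_dl)
  have c3 : ContinuousAt (fun p : ℂ × ℂ × ℂ => 2 * Complex.sin (π * dl p.1 p.2.1 p.2.2)) 0 :=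
    continuousAt_const.mul sin_an_dl
  have v1 : 2 * Complex.cos (0 : ℂ × ℂ × ℂ).1 + 2 * Complex.cos (2 * π *
      dl (0 : ℂ × ℂ × ℂ).1 (0 : ℂ × ℂ × ℂ).2.1 (0 : ℂ × ℂ × ℂ).2.2) = 2 := by
    simp [cos_two_pi_dl_zero]
  have v2 : 2 * Complex.cos (0 : ℂ × ℂ × ℂ).2.1 + 2 * Complex.cos (2 * π *
      dl (0 : ℂ × ℂ × ℂ).1 (0 : ℂ × ℂ × ℂ).2.1 (0 : ℂ × ℂ × ℂ).2.2) = 2 := by
    simp [cos_two_pi_dl_zero]
  have v4 : 2 * Complex.cos (0 : ℂ × ℂ × ℂ).2.2 - 2 * Complex.cos (2 * π *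
      dl (0 : ℂ × ℂ × ℂ).1 (0 : ℂ × ℂ × ℂ).2.1 (0 : ℂ × ℂ × ℂ).2.2) = 2 := by
    simp [cos_two_pi_dl_zero]
  have v3 : 2 * Complex.sin (π * dl (0 : ℂ × ℂ × ℂ).1 (0 : ℂ × ℂ × ℂ).2.1
      (0 : ℂ × ℂ × ℂ).2.2) = ((√2 : ℝ) : ℂ) := two_sin_dl_zero
  have l1 : ContinuousAt (fun p : ℂ × ℂ × ℂ => Complex.log (2 * Complex.cos p.1 +
      2 * Complex.cos (2 * π * dl p.1 p.2.1 p.2.2))) 0 := by
    apply c1.clog
    rw [v1]; left; norm_num
  have l2 : ContinuousAt (fun p : ℂ × ℂ × ℂ => Complex.log (2 * Complex.cos p.2.1 +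
      2 * Complex.cos (2 * π * dl p.1 p.2.1 p.2.2))) 0 := by
    apply c2.clog
    rw [v2]; left; norm_num
  have l4 : ContinuousAt (fun p : ℂ × ℂ × ℂ => Complex.log (2 * Complex.cos p.2.2 -
      2 * Complex.cos (2 * π * dl p.1 p.2.1 p.2.2))) 0 := by
    apply c4.clog
    rw [v4]; left; norm_num
  have s2 : (0:ℝ) < √2 := by positivity
  have l3 : ContinuousAt (fun p : ℂ × ℂ × ℂ =>
      Complex.log (2 * Complex.sin (π * dl p.1 p.2.1 p.2.2))) 0 := by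
    apply c3.clog
    rw [v3]; left; simp
  set f : ℂ × ℂ × ℂ → ℂ := fun p => Complex.log (2 * Complex.cos p.1 +
      2 * Complex.cos (2 * π * dl p.1 p.2.1 p.2.2)) + Complex.log (2 * Complex.cos p.2.1 +
      2 * Complex.cos (2 * π * dl p.1 p.2.1 p.2.2)) - (Complex.log (2 * Complex.cos p.2.2 -
      2 * Complex.cos (2 * π * dl p.1 p.2.1 p.2.2)) +
      2 * Complex.log (2 * Complex.sin (π * dl p.1 p.2.1 p.2.2)))
    with hf
  have lf : ContinuousAt f 0 := (l1.add l2).sub (l4.add (continuousAt_const.mul l3))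
  have f0 : f 0 = 0 := by
    simp only [hf]
    rw [v1, v2, v3, v4, ← Complex.ofReal_log s2.le, Real.log_sqrt (by norm_num)]
    rw [show (2:ℂ) = ((2:ℝ):ℂ) by norm_num, ← Complex.ofReal_log (by norm_num)]
    push_cast; ring
  have e1 : ∀ᶠ p in 𝓝 0, ‖f p‖ < 1 := by
    apply (lf.norm).eventually_lt_const
    change ‖f 0‖ < 1
    rw [f0]; simp
  have n1 := c1.eventually_ne (y := 0) (by rw [v1]; norm_num)
  have n2 := c2.eventually_ne (y := 0) (by rw [v2]; norm_num)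
  have n3 := c3.eventually_ne (y := 0) (by rw [v3]; exact_mod_cast s2.ne')
  have n5 := c4.eventually_ne (y := 0) (by rw [v4]; norm_num)
  have n4 : ∀ᶠ p : ℂ × ℂ × ℂ in 𝓝 0,
      1 + Complex.cos p.2.2 + Complex.cos p.1 + Complex.cos p.2.1 ≠ 0 := by
    have : ContinuousAt (fun p : ℂ × ℂ × ℂ =>
        1 + Complex.cos p.2.2 + Complex.cos p.1 + Complex.cos p.2.1) 0 := by
      fun_prop
    apply this.eventually_ne
    simp; norm_num
  filter_upwards [e1, n1, n2, n3, n4, n5, dcos_ev] with p hp n1 n2 n3 n4 n5 hd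
  have key : f p = 0 := by
    apply eq_zero_of_exp _ _ hp
    simp only [hf]
    rw [Complex.exp_sub, Complex.exp_add, Complex.exp_add, Complex.exp_log n1,
      Complex.exp_log n2, Complex.exp_log n5,
      show 2 * Complex.log (2 * Complex.sin (π * dl p.1 p.2.1 p.2.2)) =
      ((2:ℕ):ℂ) * Complex.log (2 * Complex.sin (π * dl p.1 p.2.1 p.2.2)) by push_cast; ring,
      Complex.exp_nat_mul, Complex.exp_log n3]
    rw [div_eq_one_iff_eq (mul_ne_zero n5 (pow_ne_zero 2 n3))]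
    have h1 : 2 * Complex.sin (π * dl p.1 p.2.1 p.2.2) ^ 2 =
        1 - Complex.cos (2 * π * dl p.1 p.2.1 p.2.2) := by
      rw [show (2 * π * dl p.1 p.2.1 p.2.2 : ℂ) = 2 * (π * dl p.1 p.2.1 p.2.2) by ring,
        Complex.cos_two_mul, Complex.sin_sq]
      ring
    have h2 : (2 * Complex.sin (π * dl p.1 p.2.1 p.2.2)) ^ 2 =
        2 * (1 - Complex.cos (2 * π * dl p.1 p.2.1 p.2.2)) := by
      rw [← h1]; ring
    rw [h2, hd]
    have h3 : WW p * (1 + Complex.cos p.2.2 + Complex.cos p.1 + Complex.cos p.2.1) =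
        Complex.cos p.2.2 - Complex.cos p.1 * Complex.cos p.2.1 := by
      rw [WW, div_mul_cancel₀ _ n4]
    linear_combination 4 * h3
  have := key
  simp only [hf, sub_eq_zero] at this
  exact this

end Pool.Agent.Y641.CB
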